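import Mathlib
import Pool.Agent.Y958.U.Stm

/-! Job 1001: `S_BOX`, boxes with prescribed small side lengths in dense sets. -/

set_option autoImplicit false

open Finset

namespace Pool.Agent.Y40.J.Box

open Pool.Agent.Y958.U

theorem mem_bx {d N : ℕ} {r : Fin d → ℤ} : r ∈ bx d N ↔ ∀ i, -(N : ℤ) ≤ r i ∧ r i ≤ N := by
  simp [bx, Fintype.mem_piFinset]

theorem card_bx (d N : ℕ) : (bx d N).card = (2 * N + 1) ^ d := by
  have h : ((N : ℤ) + 1 + (N : ℤ)).toNat = 2 * N + 1 := by omega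
  simp [bx, Fintype.card_piFinset, Int.card_Icc, h]

open Classical in
/-- the slice -/
noncomputable def sl {d : ℕ} (N : ℕ) (S : Finset (Fin (d + 1) → ℤ)) (t : ℤ) :
    Finset (Fin d → ℤ) := (bx d N).filter (fun r => (Fin.cons t r : Fin (d + 1) → ℤ) ∈ S)

theorem mem_sl {d N : ℕ} {S : Finset (Fin (d + 1) → ℤ)} {t : ℤ} {r : Fin d → ℤ} :
    r ∈ sl N S t ↔ r ∈ bx d N ∧ (Fin.cons t r : Fin (d + 1) → ℤ) ∈ S := by
  simp [sl]

theorem card_sl_sum {d N : ℕ} {S : Finset (Fin (d + 1) → ℤ)} (hS : S ⊆ bx (d + 1) N) :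
    ∑ t ∈ Icc (-(N : ℤ)) N, (sl N S t).card = S.card := by
  classical
  rw [Finset.card_eq_sum_card_fiberwise (f := fun s : Fin (d + 1) → ℤ => s 0)
    (t := Icc (-(N : ℤ)) N)]
  · refine Finset.sum_congr rfl fun t ht => ?_
    have : S.filter (fun s => s 0 = t) = (sl N S t).image (fun r => (Fin.cons t r : Fin (d + 1) → ℤ)) := by
      ext s
      simp only [mem_filter, mem_image, mem_sl]
      constructor
      · rintro ⟨h1, h2⟩
        refine ⟨Fin.tail s, ⟨?_, ?_⟩, ?_⟩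
        · rw [mem_bx]
          intro i
          exact mem_bx.1 (hS h1) i.succ
        · rw [← h2, Fin.cons_self_tail]
          exact h1
        · rw [← h2, Fin.cons_self_tail]
      · rintro ⟨r, ⟨h1, h2⟩, rfl⟩
        exact ⟨h2, by simp⟩
    rw [this, Finset.card_image_of_injective]
    intro a b hab
    have := congrArg Fin.tail hab
    simpa using this
  · intro s hs
    have := mem_bx.1 (hS hs) 0
    simpa using this

theorem step {d : ℕ} {δ : ℝ} (hδ : 0 < δ) {K : ℕ} (hK : 64 * 9 ^ d / δ ^ 2 < K) {g : ℕ}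
    (hg : 1 ≤ g) {N : ℕ} (hN : K * g + 1 ≤ N) {S : Finset (Fin (d + 1) → ℤ)}
    (hS : S ⊆ bx (d + 1) N) (hd : δ * (N : ℝ) ^ (d + 1) ≤ S.card) :
    ∃ (t : ℤ) (l l' : ℕ), l < l' ∧ l' < K ∧
      δ ^ 2 / (64 * 3 ^ d) * (N : ℝ) ^ d ≤ ((sl N S (t + l * g) ∩ sl N S (t + l' * g)).card : ℝ) := by
  classical
  by_contra hcon
  push Not at hcon
  have hK0 : (0 : ℝ) < K := lt_of_le_of_lt (by positivity) hK
  have hN0 : (1 : ℝ) ≤ N := by
    have : 1 ≤ N := by omega
    exact_mod_cast this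
  -- a good block
  set B : Finset ℤ := Icc (-(N : ℤ) - K * g) N with hB
  have hBc : (B.card : ℝ) ≤ 4 * N := by
    have h1 : B.card = 2 * N + 1 + K * g := by
      rw [hB, Int.card_Icc]
      have : (N : ℤ) + 1 - (-(N : ℤ) - K * g) = ((2 * N + 1 + K * g : ℕ) : ℤ) := by
        push_cast; ring
      rw [this, Int.toNat_natCast]
    have h2 : B.card ≤ 4 * N := by rw [h1]; omega
    exact_mod_cast h2
  have hblock : ∃ t ∈ B, δ / 4 * K * (N : ℝ) ^ d ≤ ∑ l ∈ range K, ((sl N S (t + l * g)).card : ℝ) := by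
    by_contra hno
    push Not at hno
    have h1 : ∑ t ∈ B, ∑ l ∈ range K, ((sl N S (t + l * g)).card : ℝ) ≤
        ∑ t ∈ B, δ / 4 * K * (N : ℝ) ^ d := Finset.sum_le_sum fun t ht => (hno t ht).le
    have hBne : B.Nonempty := by
      refine ⟨0, ?_⟩
      rw [hB, mem_Icc]
      have h0 : (0 : ℤ) ≤ (K : ℤ) * g := by positivity
      have h1 : (0 : ℤ) ≤ (N : ℤ) := by positivity
      constructor <;> linarith
    have h1' : ∑ t ∈ B, ∑ l ∈ range K, ((sl N S (t + l * g)).card : ℝ) <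
        ∑ t ∈ B, δ / 4 * K * (N : ℝ) ^ d := Finset.sum_lt_sum_of_nonempty hBne fun t ht => hno t ht
    have h2 : ∀ l ∈ range K, (S.card : ℝ) ≤ ∑ t ∈ B, ((sl N S (t + l * g)).card : ℝ) := by
      intro l hl
      rw [← card_sl_sum hS]
      push_cast
      have h3 : ∑ t ∈ Icc (-(N : ℤ)) N, ((sl N S t).card : ℝ) =
          ∑ t ∈ (Icc (-(N : ℤ)) N).image (fun t : ℤ => t - (l : ℤ) * g),
            ((sl N S (t + l * g)).card : ℝ) := by
        rw [Finset.sum_image]
        · refine Finset.sum_congr rfl fun t _ => ?_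
          rw [sub_add_cancel]
        · intro a _ b _ hab
          simp only at hab
          linarith
      rw [h3]
      refine Finset.sum_le_sum_of_subset_of_nonneg ?_ (fun _ _ _ => by positivity)
      intro t ht
      simp only [mem_image, mem_Icc] at ht
      obtain ⟨u, ⟨hu1, hu2⟩, rfl⟩ := ht
      have hl' : (l : ℤ) * g ≤ K * g := by
        have := (mem_range.1 hl).le
        have : (l : ℤ) ≤ K := by exact_mod_cast this
        exact mul_le_mul_of_nonneg_right this (by positivity)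
      have hl0 : (0 : ℤ) ≤ (l : ℤ) * g := by positivity
      simp only [hB, mem_Icc]
      constructor <;> linarith
    have h4 : (K : ℝ) * S.card ≤ ∑ t ∈ B, ∑ l ∈ range K, ((sl N S (t + l * g)).card : ℝ) := by
      rw [Finset.sum_comm]
      calc (K : ℝ) * S.card = ∑ l ∈ range K, (S.card : ℝ) := by simp
        _ ≤ _ := Finset.sum_le_sum h2
    have h5 : ∑ t ∈ B, δ / 4 * K * (N : ℝ) ^ d = B.card * (δ / 4 * K * (N : ℝ) ^ d) := by
      simp
    rw [h5] at h1'
    have h6 : (B.card : ℝ) * (δ / 4 * K * (N : ℝ) ^ d) ≤ 4 * N * (δ / 4 * K * (N : ℝ) ^ d) :=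
      mul_le_mul_of_nonneg_right hBc (by positivity)
    have h7 : 4 * N * (δ / 4 * K * (N : ℝ) ^ d) = K * (δ * (N : ℝ) ^ (d + 1)) := by ring
    have h8 : (K : ℝ) * (δ * (N : ℝ) ^ (d + 1)) ≤ K * S.card := mul_le_mul_of_nonneg_left hd hK0.le
    linarith
  obtain ⟨t, -, ht⟩ := hblock
  set f : (Fin d → ℤ) → ℝ := fun r => ∑ l ∈ range K,
    (if (Fin.cons (t + l * g) r : Fin (d + 1) → ℤ) ∈ S then (1 : ℝ) else 0) with hf
  have hf1 : ∑ r ∈ bx d N, f r = ∑ l ∈ range K, ((sl N S (t + l * g)).card : ℝ) := by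
    simp only [hf]
    rw [Finset.sum_comm]
    refine Finset.sum_congr rfl fun l _ => ?_
    rw [← Finset.sum_filter]
    simp [sl]
  have hf2 : ∑ r ∈ bx d N, f r ^ 2 =
      ∑ l ∈ range K, ∑ l' ∈ range K, ((sl N S (t + l * g) ∩ sl N S (t + l' * g)).card : ℝ) := by
    simp only [hf, sq, Finset.sum_mul_sum]
    rw [Finset.sum_comm]
    refine Finset.sum_congr rfl fun l _ => ?_
    rw [Finset.sum_comm]
    refine Finset.sum_congr rfl fun l' _ => ?_
    have : ∀ r ∈ bx d N, (if (Fin.cons (t + l * g) r : Fin (d + 1) → ℤ) ∈ S then (1 : ℝ) else 0) *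
        (if (Fin.cons (t + l' * g) r : Fin (d + 1) → ℤ) ∈ S then (1 : ℝ) else 0) =
        if ((Fin.cons (t + l * g) r : Fin (d + 1) → ℤ) ∈ S ∧
          (Fin.cons (t + l' * g) r : Fin (d + 1) → ℤ) ∈ S) then (1 : ℝ) else 0 := by
      intro r _
      split_ifs <;> simp_all
    rw [Finset.sum_congr rfl this, ← Finset.sum_filter]
    rw [Finset.sum_const, nsmul_eq_mul, mul_one]
    congr 2
    ext r
    simp only [mem_filter, mem_inter, mem_sl]
    tauto
  have hN3 : ((bx d N).card : ℝ) ≤ 3 ^ d * (N : ℝ) ^ d := by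
    rw [card_bx, ← mul_pow]
    push_cast
    exact pow_le_pow_left₀ (by positivity) (by linarith) d
  have hcs : (∑ r ∈ bx d N, f r) ^ 2 ≤ (bx d N).card * ∑ r ∈ bx d N, f r ^ 2 :=
    sq_sum_le_card_mul_sum_sq
  have hup : ∑ r ∈ bx d N, f r ^ 2 ≤ K * (3 ^ d * (N : ℝ) ^ d) +
      K ^ 2 * (δ ^ 2 / (64 * 3 ^ d) * (N : ℝ) ^ d) := by
    rw [hf2]
    have h1 : ∀ l ∈ range K, ∀ l' ∈ range K,
        ((sl N S (t + l * g) ∩ sl N S (t + l' * g)).card : ℝ) ≤
          (if l = l' then 3 ^ d * (N : ℝ) ^ d else 0) + δ ^ 2 / (64 * 3 ^ d) * (N : ℝ) ^ d := by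
      intro l hl l' hl'
      rcases lt_trichotomy l l' with h | h | h
      · rw [if_neg h.ne, zero_add]
        exact (hcon t l l' h (mem_range.1 hl')).le
      · rw [if_pos h]
        have h2 : (sl N S (t + l * g) ∩ sl N S (t + l' * g)).card ≤ (bx d N).card :=
          Finset.card_le_card fun r hr => (mem_sl.1 (mem_inter.1 hr).1).1
        have h3 : ((sl N S (t + l * g) ∩ sl N S (t + l' * g)).card : ℝ) ≤ (bx d N).card := by
          exact_mod_cast h2
        have h4 : (0 : ℝ) ≤ δ ^ 2 / (64 * 3 ^ d) * (N : ℝ) ^ d := by positivity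
        linarith
      · rw [if_neg h.ne', zero_add, Finset.inter_comm]
        exact (hcon t l' l h (mem_range.1 hl)).le
    calc ∑ l ∈ range K, ∑ l' ∈ range K, ((sl N S (t + l * g) ∩ sl N S (t + l' * g)).card : ℝ)
        ≤ ∑ l ∈ range K, ∑ l' ∈ range K, ((if l = l' then 3 ^ d * (N : ℝ) ^ d else 0) +
            δ ^ 2 / (64 * 3 ^ d) * (N : ℝ) ^ d) :=
          Finset.sum_le_sum fun l hl => Finset.sum_le_sum fun l' hl' => h1 l hl l' hl'
      _ = K * (3 ^ d * (N : ℝ) ^ d) + K ^ 2 * (δ ^ 2 / (64 * 3 ^ d) * (N : ℝ) ^ d) := by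
          simp only [Finset.sum_add_distrib, Finset.sum_ite_eq, mem_range, Finset.sum_const,
            card_range, nsmul_eq_mul]
          rw [Finset.sum_congr rfl (fun l hl => if_pos (mem_range.1 hl))]
          simp only [Finset.sum_const, card_range, nsmul_eq_mul]
          ring
  have hlow : (δ / 4 * K * (N : ℝ) ^ d) ^ 2 ≤ (∑ r ∈ bx d N, f r) ^ 2 := by
    rw [hf1]
    exact pow_le_pow_left₀ (by positivity) ht 2
  have hchain : (δ / 4 * K * (N : ℝ) ^ d) ^ 2 ≤ (3 ^ d * (N : ℝ) ^ d) *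
      (K * (3 ^ d * (N : ℝ) ^ d) + K ^ 2 * (δ ^ 2 / (64 * 3 ^ d) * (N : ℝ) ^ d)) :=
    (hlow.trans hcs).trans (mul_le_mul hN3 hup (Finset.sum_nonneg fun _ _ => sq_nonneg _)
      (by positivity))
  have h9 : (9 : ℝ) ^ d = 3 ^ d * 3 ^ d := by rw [← mul_pow]; norm_num
  have hM : (0 : ℝ) < K * ((N : ℝ) ^ d) ^ 2 := by positivity
  have e1 : (3 ^ d * (N : ℝ) ^ d) *
      (K * (3 ^ d * (N : ℝ) ^ d) + K ^ 2 * (δ ^ 2 / (64 * 3 ^ d) * (N : ℝ) ^ d)) =
      (9 ^ d + δ ^ 2 / 64 * K) * (K * ((N : ℝ) ^ d) ^ 2) := by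
    rw [h9]
    have : (3 : ℝ) ^ d ≠ 0 := by positivity
    field_simp
  have e2 : (δ / 4 * K * (N : ℝ) ^ d) ^ 2 = (δ ^ 2 / 16 * K) * (K * ((N : ℝ) ^ d) ^ 2) := by ring
  rw [e1, e2] at hchain
  have h10 := le_of_mul_le_mul_right hchain hM
  have h11 : 64 * 9 ^ d < K * δ ^ 2 := by
    rwa [div_lt_iff₀ (by positivity)] at hK
  have h12 : (0 : ℝ) < 9 ^ d := by positivity
  nlinarith

theorem box : S_BOX := by
  classical
  intro d
  induction d with
  | zero =>
    intro δ hδ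
    refine ⟨1, le_rfl, fun G _ => ⟨0, fun N _ S _ hc => ?_⟩⟩
    have hne : S.Nonempty := by
      rw [← Finset.card_pos]
      have : (0 : ℝ) < S.card := lt_of_lt_of_le (by simpa using hδ) hc
      exact_mod_cast this
    obtain ⟨s, hs⟩ := hne
    refine ⟨s, fun _ => 1, fun i => i.elim0, fun ω => ?_⟩
    have : (fun i => s i + if i ∈ ω then (((fun _ => 1) i : ℕ) : ℤ) * G i else 0) = s := by
      funext i; exact i.elim0
    rw [this]
    exact hs
  | succ d ih =>
    intro δ hδ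
    have hδ' : 0 < δ ^ 2 / (64 * 3 ^ d) := by positivity
    obtain ⟨L, hL, hbox⟩ := ih (δ ^ 2 / (64 * 3 ^ d)) hδ'
    obtain ⟨K, hK⟩ := exists_nat_gt (64 * 9 ^ d / δ ^ 2 : ℝ)
    refine ⟨max K L, hL.trans (le_max_right _ _), fun G hG => ?_⟩
    obtain ⟨N₁, hN₁⟩ := hbox (fun i => G i.succ) (fun i => hG i.succ)
    refine ⟨max N₁ (K * G 0 + 1), fun N hN S hS hc => ?_⟩
    obtain ⟨t, l, l', hll, hl', hcard⟩ := step hδ hK (hG 0)
      ((le_max_right _ _).trans hN) hS hc
    obtain ⟨r, j, hj, hin⟩ := hN₁ N ((le_max_left _ _).trans hN)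
      (sl N S (t + l * G 0) ∩ sl N S (t + l' * G 0))
      (fun r hr => (mem_sl.1 (mem_inter.1 hr).1).1) hcard
    refine ⟨Fin.cons (t + l * G 0) r, Fin.cons (l' - l) j, ?_, ?_⟩
    · intro i
      refine Fin.cases ?_ (fun i => ?_) i
      · simp only [Fin.cons_zero]
        constructor
        · omega
        · exact (by omega : l' - l ≤ K).trans (le_max_left _ _)
      · simp only [Fin.cons_succ]
        exact ⟨(hj i).1, (hj i).2.trans (le_max_right _ _)⟩
    · intro ω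
      have h := hin (univ.filter (fun i => i.succ ∈ ω))
      rw [mem_inter, mem_sl, mem_sl] at h
      by_cases h0 : (0 : Fin (d + 1)) ∈ ω
      · have e : (fun i => (Fin.cons (t + l * G 0) r : Fin (d + 1) → ℤ) i +
            if i ∈ ω then (((Fin.cons (l' - l) j : Fin (d + 1) → ℕ) i : ℕ) : ℤ) * G i else 0) =
            (Fin.cons (t + l' * G 0) (fun i => r i +
              if i ∈ (univ.filter (fun i : Fin d => i.succ ∈ ω)) then (j i : ℤ) * G i.succ else 0)
              : Fin (d + 1) → ℤ) := by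
          funext i
          refine Fin.cases ?_ (fun i => ?_) i
          · simp only [Fin.cons_zero, if_pos h0]
            rw [Nat.cast_sub hll.le]
            ring
          · simp
        rw [e]
        exact h.2.2
      · have e : (fun i => (Fin.cons (t + l * G 0) r : Fin (d + 1) → ℤ) i +
            if i ∈ ω then (((Fin.cons (l' - l) j : Fin (d + 1) → ℕ) i : ℕ) : ℤ) * G i else 0) =
            (Fin.cons (t + l * G 0) (fun i => r i +
              if i ∈ (univ.filter (fun i : Fin d => i.succ ∈ ω)) then (j i : ℤ) * G i.succ else 0)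
              : Fin (d + 1) → ℤ) := by
          funext i
          refine Fin.cases ?_ (fun i => ?_) i
          · simp only [Fin.cons_zero, if_neg h0, add_zero]
          · simp
        rw [e]
        exact h.1.2

end Pool.Agent.Y40.J.Box
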